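import Pool.Agent.N805.VP.Stm

/-!
A finite union of half-open intervals is a finite disjoint union of nonempty ones.
-/

namespace Pool.Agent.N79.VP

open Set

/-- The interval of a pair. -/
def iv (p : ℝ × ℝ) : Set ℝ := Ico p.1 p.2

theorem dec_aux (n : ℕ) : ∀ a b : Fin n → ℝ, ∃ P : Finset (ℝ × ℝ), (∀ p ∈ P, p.1 < p.2) ∧
    (∀ p ∈ P, ∀ q ∈ P, p ≠ q → Disjoint (iv p) (iv q)) ∧
    ∀ x : ℝ, (∃ i, x ∈ Ico (a i) (b i)) ↔ ∃ p ∈ P, x ∈ iv p := by
  induction n with
  | zero =>
    intro a b
    exact ⟨∅, by simp, by simp, fun x => by simp⟩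
  | succ n ih =>
    intro a b
    obtain ⟨P, h1, h2, h3⟩ := ih (fun i => a i.succ) (fun i => b i.succ)
    by_cases hab : a 0 < b 0
    · classical
      set a0 := a 0 with ha0
      set b0 := b 0 with hb0
      have hL : ∀ p : ℝ × ℝ, iv (p.1, min p.2 a0) = iv p ∩ Iio a0 := fun p => by
        ext x
        simp only [iv, mem_Ico, lt_min_iff, mem_inter_iff, mem_Iio]
        tauto
      have hR : ∀ p : ℝ × ℝ, iv (max p.1 b0, p.2) = iv p ∩ Ici b0 := fun p => by
        ext x
        simp only [iv, mem_Ico, max_le_iff, mem_inter_iff, mem_Ici]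
        tauto
      set Q : Finset (ℝ × ℝ) := insert (a0, b0)
        ((P.image fun p => (p.1, min p.2 a0)) ∪ (P.image fun p => (max p.1 b0, p.2))) with hQ
      have hQmem : ∀ q ∈ Q, q = (a0, b0) ∨ (∃ p ∈ P, q = (p.1, min p.2 a0)) ∨
          (∃ p ∈ P, q = (max p.1 b0, p.2)) := by
        intro q hq
        rw [hQ, Finset.mem_insert, Finset.mem_union, Finset.mem_image, Finset.mem_image] at hq
        rcases hq with h | ⟨p, hp, h⟩ | ⟨p, hp, h⟩
        · exact Or.inl h
        · exact Or.inr (Or.inl ⟨p, hp, h.symm⟩)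
        · exact Or.inr (Or.inr ⟨p, hp, h.symm⟩)
      have hdisj : ∀ p ∈ Q, ∀ q ∈ Q, p ≠ q → Disjoint (iv p) (iv q) := by
        have hA : ∀ p : ℝ × ℝ, Disjoint (iv (a0, b0)) (iv (p.1, min p.2 a0)) := fun p => by
          rw [hL, Set.disjoint_left]
          rintro x hx ⟨_, hx2⟩
          exact absurd hx.1 (not_le.mpr hx2)
        have hB : ∀ p : ℝ × ℝ, Disjoint (iv (a0, b0)) (iv (max p.1 b0, p.2)) := fun p => by
          rw [hR, Set.disjoint_left]
          rintro x hx ⟨_, hx2⟩
          exact absurd hx.2 (not_lt.mpr hx2)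
        have hC : ∀ p q : ℝ × ℝ, Disjoint (iv (p.1, min p.2 a0)) (iv (max q.1 b0, q.2)) :=
          fun p q => by
            rw [hR, hL, Set.disjoint_left]
            rintro x ⟨_, hx1⟩ ⟨_, hx2⟩
            exact absurd hab (not_lt.mpr (le_of_lt (lt_of_le_of_lt hx2 hx1)))
        intro p hp q hq hpq
        rcases hQmem p hp with rfl | ⟨p', hp', rfl⟩ | ⟨p', hp', rfl⟩ <;>
          rcases hQmem q hq with rfl | ⟨q', hq', rfl⟩ | ⟨q', hq', rfl⟩
        · exact absurd rfl hpq
        · exact hA q'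
        · exact hB q'
        · exact (hA p').symm
        · have hne : p' ≠ q' := fun h => hpq (by rw [h])
          rw [hL, hL]
          exact (h2 p' hp' q' hq' hne).mono inter_subset_left inter_subset_left
        · exact hC p' q'
        · exact (hB p').symm
        · exact (hC q' p').symm
        · have hne : p' ≠ q' := fun h => hpq (by rw [h])
          rw [hR, hR]
          exact (h2 p' hp' q' hq' hne).mono inter_subset_left inter_subset_left
      refine ⟨Q.filter fun p => p.1 < p.2, fun p hp => (Finset.mem_filter.mp hp).2,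
        fun p hp q hq hpq => hdisj p (Finset.mem_filter.mp hp).1 q (Finset.mem_filter.mp hq).1 hpq,
        fun x => ?_⟩
      constructor
      · rintro ⟨i, hi⟩
        have key : ∃ q ∈ Q, x ∈ iv q := by
          by_cases hx : x ∈ Ico a0 b0
          · exact ⟨(a0, b0), Finset.mem_insert_self _ _, hx⟩
          · have hi' : ∃ j : Fin n, x ∈ Ico (a j.succ) (b j.succ) := by
              refine Fin.cases ?_ (fun j hj => ⟨j, hj⟩) i hi
              intro h0
              exact absurd h0 hx
            obtain ⟨p, hp, hxp⟩ := (h3 x).mp hi'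
            by_cases hxa : x < a0
            · refine ⟨(p.1, min p.2 a0), ?_, ?_⟩
              · exact Finset.mem_insert_of_mem (Finset.mem_union_left _
                  (Finset.mem_image_of_mem _ hp))
              · rw [hL]; exact ⟨hxp, hxa⟩
            · have hxb : b0 ≤ x := by
                by_contra hcon
                exact hx ⟨not_lt.mp hxa, not_le.mp hcon⟩
              refine ⟨(max p.1 b0, p.2), ?_, ?_⟩
              · exact Finset.mem_insert_of_mem (Finset.mem_union_right _
                  (Finset.mem_image_of_mem (fun p : ℝ × ℝ => (max p.1 b0, p.2)) hp))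
              · rw [hR]; exact ⟨hxp, hxb⟩
        obtain ⟨q, hq, hxq⟩ := key
        exact ⟨q, Finset.mem_filter.mpr ⟨hq, lt_of_le_of_lt hxq.1 hxq.2⟩, hxq⟩
      · rintro ⟨q, hq, hxq⟩
        rcases hQmem q (Finset.mem_filter.mp hq).1 with rfl | ⟨p, hp, rfl⟩ | ⟨p, hp, rfl⟩
        · exact ⟨0, hxq⟩
        · rw [hL] at hxq
          obtain ⟨j, hj⟩ := (h3 x).mpr ⟨p, hp, hxq.1⟩
          exact ⟨j.succ, hj⟩
        · rw [hR] at hxq
          obtain ⟨j, hj⟩ := (h3 x).mpr ⟨p, hp, hxq.1⟩
          exact ⟨j.succ, hj⟩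
    · refine ⟨P, h1, h2, fun x => ?_⟩
      rw [← h3 x]
      constructor
      · rintro ⟨i, hi⟩
        refine Fin.cases ?_ (fun j hj => ⟨j, hj⟩) i hi
        intro h0
        exact absurd (lt_of_le_of_lt h0.1 h0.2) hab
      · rintro ⟨j, hj⟩
        exact ⟨j.succ, hj⟩

theorem DEC : Pool.Agent.N805.VP.S_DEC := by
  intro n a b
  obtain ⟨P, h1, h2, h3⟩ := dec_aux n a b
  refine ⟨P.card, fun i => (P.equivFin.symm i).1.1, fun i => (P.equivFin.symm i).1.2,
    fun i => h1 _ (P.equivFin.symm i).2, ?_, ?_⟩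
  · intro i _ j _ hij
    refine h2 _ (P.equivFin.symm i).2 _ (P.equivFin.symm j).2 fun h => hij ?_
    exact P.equivFin.symm.injective (Subtype.ext h)
  · ext x
    simp only [mem_iUnion]
    rw [h3 x]
    constructor
    · rintro ⟨p, hp, hx⟩
      refine ⟨P.equivFin ⟨p, hp⟩, ?_⟩
      simpa [iv] using hx
    · rintro ⟨i, hi⟩
      exact ⟨_, (P.equivFin.symm i).2, hi⟩

end Pool.Agent.N79.VP
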